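import Pool.Agent.T2h19.AP.Stm

set_option autoImplicit false

open MvPolynomial Pool.Agent.T2h19.AP

namespace Pool.Agent.HX6.AP

theorem den_ : S_DEN := by
  intro ι _ _ K hK F hF z hz
  by_cases hz0 : z = 0
  · have h := hF 0 0
    rw [zero_smul] at h
    rw [hz0]
    exact h
  obtain ⟨w, hw, t, u₀, ht, hzw⟩ := hK.cover z hz hz0
  -- the polynomial u ↦ F (w (t • pt u))
  set G : MvPolynomial (Fin 6) ℂ := pull K.φ (subst (t • w.toLinearMap) F) with hG
  have hGe : ∀ u, eval u G = eval (w (t • K.pt u)) F := by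
    intro u
    rw [hG, eval_pull, eval_subst]
    congr 2
    change t • w (ev K.φ u) = w (t • ev K.φ u)
    rw [map_smul]
  have hprod : K.q w * G = 0 := by
    apply MvPolynomial.funext
    intro u
    rw [map_mul, map_zero]
    by_cases hq : eval u (K.q w) = 0
    · rw [hq, zero_mul]
    · have hmem : w (t • K.pt u) ∈ K.C := Cells.cell_mem hK hw t u
      have hL : K.L 0 (w (t • K.pt u)) ≠ 0 := by
        rw [map_smul, map_smul, smul_eq_mul, ← Cells.eval_q]
        exact mul_ne_zero ht hq
      have h1 := Cells.eq_smul hK hmem hL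
      have h2 : eval (w (t • K.pt u)) F = 0 := by
        rw [h1]
        exact hF _ _
      rw [hGe, h2, mul_zero]
  have hG0 : G = 0 := by
    rcases mul_eq_zero.1 hprod with h | h
    · exact absurd h (hK.q_ne w hw)
    · exact h
  have h := hGe u₀
  rw [hG0, map_zero] at h
  rw [hzw]
  exact h.symm

end Pool.Agent.HX6.AP
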